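import Pool.Agent.TH159.SD.JOmegaB

/-!
# SD-K6 (helper159 for helper179): from skew forms to orthogonal complex structures on `z^⊥`
-/

open scoped Topology
open Set Matrix

noncomputable section

namespace Pool.Agent.TH159.SD

open Pool.Agent.TH179.SD

/-- the standard 2-form on `V` -/
def stdF : Alt 2 where
  toFun m := ∑ k, ((starRingEnd ℂ) (m 0 k) * m 1 k).im
  map_update_add' m i x y := by
    classical
    fin_cases i
    · simp [Function.update, add_mul, Finset.sum_add_distrib]
    · simp [Function.update, mul_add, Finset.sum_add_distrib]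
  map_update_smul' m i c x := by
    classical
    fin_cases i
    · simp only [Fin.zero_eta, Fin.isValue, Function.update_self, Pi.smul_apply, ne_eq,
        one_ne_zero, not_false_eq_true, Function.update_of_ne, Complex.real_smul, map_mul,
        Complex.conj_ofReal, smul_eq_mul, Finset.mul_sum]
      refine Finset.sum_congr rfl fun k _ => ?_
      rw [mul_assoc, Complex.im_ofReal_mul]
    · simp only [Fin.mk_one, Fin.isValue, Function.update_self, Pi.smul_apply, ne_eq,
        zero_ne_one, not_false_eq_true, Function.update_of_ne, Complex.real_smul,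
        smul_eq_mul, Finset.mul_sum]
      refine Finset.sum_congr rfl fun k _ => ?_
      rw [mul_left_comm, Complex.im_ofReal_mul]
  cont := by
    fun_prop
  map_eq_zero_of_eq' v i j h hij := by
    have : v 0 = v 1 := by
      fin_cases i <;> fin_cases j <;> simp_all
    simp only [this]
    refine Finset.sum_eq_zero fun k _ => ?_
    rw [← Complex.normSq_eq_conj_mul_self]
    simp

theorem stdF_apply (u v : V) : stdF ![u, v] = ∑ k, ((starRingEnd ℂ) (u k) * v k).im := rfl

theorem stdF_pow (hP : PowProps) : pow4 stdF rb = 384 := by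
  have h := hP.diag stdF (fun _ => 1) ?_
  · simpa using h
  · intro i j x y
    rw [stdF_apply]
    rcases eq_or_ne i j with h | h
    · subst h
      rw [if_pos rfl, one_mul, Finset.sum_eq_single i]
      · simp
      · intro k _ hk
        simp [Pi.single_eq_of_ne hk]
      · simp
    · rw [if_neg h]
      refine Finset.sum_eq_zero fun k _ => ?_
      rcases eq_or_ne k i with hk | hk
      · subst hk
        simp [Pi.single_eq_of_ne h]
      · simp [Pi.single_eq_of_ne hk]

theorem stdF_tame {u : V} (hu : u ≠ 0) : 0 < stdF ![u, Complex.I • u] := by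
  rw [stdF_apply]
  have h1 : ∀ k, ((starRingEnd ℂ) (u k) * (Complex.I • u) k).im = ‖u k‖ ^ 2 := by
    intro k
    rw [Pi.smul_apply, smul_eq_mul, mul_left_comm, ← Complex.normSq_eq_conj_mul_self,
      Complex.normSq_eq_norm_sq, Complex.I_mul_im, Complex.ofReal_re]
  simp only [h1]
  have h0 : 0 ≤ ∑ i, ‖u i‖ ^ 2 := Finset.sum_nonneg fun i _ => by positivity
  refine h0.lt_of_ne fun h => hu ?_
  have := (Finset.sum_eq_zero_iff_of_nonneg (fun i _ => by positivity)).1 h.symm
  funext i
  have hi := this i (Finset.mem_univ i)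
  simpa using hi

/-- a form tamed by `i` has positive fourth power -/
theorem tame_pos (hP : PowProps) (a : Alt 2) (ha : ∀ u : V, u ≠ 0 → 0 < a ![u, Complex.I • u]) :
    0 < pow4 a rb := by
  by_contra hneg
  rw [not_lt] at hneg
  let γ : ℝ → Alt 2 := fun s => (1 - s) • a + s • stdF
  have hγ : Continuous γ := by
    show Continuous fun s : ℝ => (1 - s) • a + s • stdF
    fun_prop
  have hf : Continuous fun s => pow4 (γ s) rb := hP.cont.comp hγ
  have h0 : pow4 (γ 0) rb ≤ 0 := by
    have : γ 0 = a := by simp [γ]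
    rw [this]
    exact hneg
  have h1 : 0 ≤ pow4 (γ 1) rb := by
    have : γ 1 = stdF := by simp [γ]
    rw [this, stdF_pow hP]
    norm_num
  obtain ⟨s, hs, hs0⟩ := intermediate_value_Icc (zero_le_one (α := ℝ)) hf.continuousOn ⟨h0, h1⟩
  have hnd : pow4 (γ s) rb ≠ 0 := by
    rw [hP.nondeg]
    intro u hu
    by_contra hne
    have e1 := hu (Complex.I • u)
    have e2 : γ s ![u, Complex.I • u] = (1 - s) * a ![u, Complex.I • u] +
        s * stdF ![u, Complex.I • u] := rfl
    rw [e2] at e1
    have e3 := ha u hne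
    have e4 := stdF_tame hne
    have e5 : 0 ≤ s := hs.1
    have e6 : s ≤ 1 := hs.2
    rcases e5.eq_or_lt with h | h
    · rw [← h] at e1
      linarith
    · have e7 : 0 ≤ (1 - s) * a ![u, Complex.I • u] := mul_nonneg (by linarith) e3.le
      have e8 : 0 < s * stdF ![u, Complex.I • u] := mul_pos h e4
      linarith
  exact hnd hs0

/-- a basis adapted to a complex structure of `z^⊥` -/
theorem exists_adapted {z : C5} (hz : z ∈ sph) (J : C5 →ₗ[ℝ] C5)
    (hJ : ∀ u, hp z u = 0 → hp z (J u) = 0) (hJ2 : ∀ u, hp z u = 0 → J (J u) = -u) :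
    ∃ L : V →ₗ[ℝ] C5, Function.Injective L ∧ (∀ v, hp z (L v) = 0) ∧
      ∀ v, L (Complex.I • v) = J (L v) := by
  set W : Submodule ℝ C5 := LinearMap.ker (hpL z) with hW
  have hmem : ∀ u, u ∈ W ↔ hp z u = 0 := fun u => LinearMap.mem_ker
  let JW : W →ₗ[ℝ] W := J.restrict (p := W) (q := W)
    (fun u hu => (hmem _).2 (hJ u ((hmem u).1 hu)))
  have hJW : JW * JW = -1 := by
    refine LinearMap.ext fun u => Subtype.ext ?_
    show J (J u) = -(u : C5)
    exact hJ2 _ ((hmem _).1 u.2)
  let f : ℂ →ₐ[ℝ] Module.End ℝ W := Complex.lift ⟨JW, hJW⟩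
  have hfI : f Complex.I = JW := Complex.liftAux_apply_I JW hJW
  let _ : Module ℂ W := Module.compHom W (f : ℂ →+* Module.End ℝ W)
  have hsmul : ∀ (c : ℂ) (w : W), c • w = f c w := fun c w => rfl
  have : IsScalarTower ℝ ℂ W := ⟨fun r c w => by
    rw [hsmul, hsmul, map_smul]
    rfl⟩
  have hfin : Module.finrank ℝ W = 8 := by
    have h1 := LinearMap.finrank_range_add_finrank_ker (hpL z)
    have h2 : LinearMap.range (hpL z) = ⊤ := by
      rw [LinearMap.range_eq_top]
      intro c
      refine ⟨c • z, ?_⟩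
      show hp z (c • z) = c
      rw [hp_smul_right, hp_self_one hz, mul_one]
    rw [h2, finrank_top, Complex.finrank_real_complex] at h1
    have h3 : Module.finrank ℝ C5 = 10 := by
      rw [Module.finrank_pi_fintype]
      simp
    rw [h3] at h1
    rw [hW]
    omega
  have : Module.Finite ℂ W := Module.Finite.right ℝ ℂ W
  have hfinC : Module.finrank ℂ W = 4 := by
    have := Module.finrank_mul_finrank ℝ ℂ W
    rw [hfin, Complex.finrank_real_complex] at this
    omega
  have hV : Module.finrank ℂ V = Module.finrank ℂ W := by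
    rw [hfinC]
    simp
  let e : V ≃ₗ[ℂ] W := LinearEquiv.ofFinrankEq V W hV
  let L : V →ₗ[ℝ] C5 := W.subtype ∘ₗ (e.toLinearMap.restrictScalars ℝ)
  refine ⟨L, ?_, ?_, ?_⟩
  · intro a b hab
    exact e.injective (Subtype.ext hab)
  · intro v
    exact (hmem _).1 (e v).2
  · intro v
    show ((e (Complex.I • v) : W) : C5) = J (e v : W)
    rw [map_smul, hsmul, hfI]
    rfl

theorem pr_sq {z : C5} (hz : z ∈ sph) : pr z * pr z = pr z := by
  refine LinearMap.ext fun u => ?_
  show pr z (pr z u) = pr z u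
  rw [pr_apply, pr_apply, hp_smul_right, hp_self_one hz, mul_one]

theorem pr_adj (z u v : C5) : ip (pr z u) v = ip u (pr z v) := by
  rw [pr_apply, pr_apply, ip_smulC_left, ip, hp_smul_right, hp_conj, mul_comm]

/-- the reflection -/
def rf (z : C5) : C5 →ₗ[ℝ] C5 := 1 - (2 : ℝ) • pr z

theorem rf_apply (z u : C5) : rf z u = u - (2 : ℝ) • pr z u := rfl

theorem rf_adj (z u v : C5) : ip (rf z u) v = ip u (rf z v) := by
  rw [rf_apply, rf_apply, sub_eq_add_neg, sub_eq_add_neg, ip_add_left, ip_add_right, ip_neg_left,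
    ip_neg_right, ip_smul_left, ip_smul_right, pr_adj]

theorem rf_sq {z : C5} (hz : z ∈ sph) : rf z * rf z = 1 := by
  refine LinearMap.ext fun u => ?_
  have h : pr z (pr z u) = pr z u := by
    have := congrArg (fun F : C5 →ₗ[ℝ] C5 => F u) (pr_sq hz)
    exact this
  show rf z (rf z u) = u
  rw [rf_apply, rf_apply, map_sub, map_smul, h]
  module

theorem comm_pr {A : C5 →ₗ[ℝ] C5} {z : C5} (h : ∀ u, A (rf z u) = rf z (A u)) (u : C5) :
    A (pr z u) = pr z (A u) := by
  have h1 := h u
  rw [rf_apply, rf_apply, map_sub, map_smul] at h1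
  have h2 : (2 : ℝ) • A (pr z u) = (2 : ℝ) • pr z (A u) := sub_right_injective h1
  exact smul_right_injective C5 (two_ne_zero (α := ℝ)) h2

theorem cont_mt_symm : Continuous fun M : Matrix (Fin 10) (Fin 10) ℝ =>
    LinearMap.toContinuousLinearMap (mt.symm M : C5 →ₗ[ℝ] C5) := by
  let F : Matrix (Fin 10) (Fin 10) ℝ →ₗ[ℝ] (C5 →L[ℝ] C5) :=
    (LinearMap.toContinuousLinearMap : (C5 →ₗ[ℝ] C5) ≃ₗ[ℝ] (C5 →L[ℝ] C5)).toLinearMap ∘ₗ
      mt.symm.toLinearMap
  exact F.continuous_of_finiteDimensional

theorem cont_pr : Continuous fun z : C5 => mt (pr z) := by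
  refine continuous_matrix fun i j => ?_
  have e : ∀ z, mt (pr z) i j = ((starRingEnd ℂ) (hp z (bC j)) * hp z (bC i)).re := by
    intro z
    rw [mt_apply, ← ip_bC, ip_comm, pr_apply, ip_smulC_left]
  simp only [e]
  have h1 : ∀ w : C5, Continuous fun z : C5 => hp z w := by
    intro w
    unfold hp
    fun_prop
  have h2 := h1 (bC i)
  have h3 := h1 (bC j)
  fun_prop

/-- K6, with the properties of the fourth power as a hypothesis -/
theorem taskJOmega (hP : PowProps) : TaskJOmega := by
  intro hpol hJ hΩ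
  apply hJ
  obtain ⟨Ω, hΩ⟩ := hΩ
  obtain ⟨pol, hpc, hpol⟩ := polar_op hpol
  have hkill : ∀ z ∈ sph, ∀ (c : ℂ) (v : C5), Ω z ![c • z, v] = 0 := fun z hz =>
    kill (hΩ.neg z hz)
  have hsk : ∀ z ∈ sph, Skew (AA Ω z) := fun z _ => skew_AA Ω z
  have hinj : ∀ z ∈ sph, Inj (AA Ω z) := fun z hz => inj_AA hP hz (hΩ.neg z hz)
  -- `J'` commutes with the projection
  have hcomm : ∀ z ∈ sph, ∀ u, pol (AA Ω z) (pr z u) = pr z (pol (AA Ω z) u) := by
    intro z hz
    apply comm_pr
    intro u
    have h1 := AA_pr hz (hkill z hz)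
    have h2 : rf z * AA Ω z * rf z = AA Ω z := by
      refine LinearMap.ext fun u => ?_
      show rf z (AA Ω z (rf z u)) = AA Ω z u
      have h3 : ∀ v, AA Ω z (pr z v) = pr z (AA Ω z v) := fun v => by
        have := congrArg (fun F : C5 →ₗ[ℝ] C5 => F v) h1
        exact this
      have h4 : ∀ v, pr z (pr z v) = pr z v := fun v => by
        have := congrArg (fun F : C5 →ₗ[ℝ] C5 => F v) (pr_sq hz)
        exact this
      rw [rf_apply, rf_apply, map_sub, map_smul, h3, map_sub, map_smul, h4]
      module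
    have h3 := pol_conj hpol (R := rf z) (R' := rf z) (rf_adj z) (rf_sq hz) (rf_sq hz)
      (hsk z hz) (hinj z hz)
    rw [h2] at h3
    have h4 : pol (AA Ω z) (rf z u) = (rf z * pol (AA Ω z) * rf z) (rf z u) := by rw [← h3]
    rw [h4]
    show rf z (pol (AA Ω z) (rf z (rf z u))) = rf z (pol (AA Ω z) u)
    have h5 : rf z (rf z u) = u := by
      have := congrArg (fun F : C5 →ₗ[ℝ] C5 => F u) (rf_sq hz)
      exact this
    rw [h5]
  have hsq : ∀ z ∈ sph, ∀ u, pol (AA Ω z) (pol (AA Ω z) u) = -u := by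
    intro z hz u
    have := (hpol _ (hsk z hz) (hinj z hz)).2.1
    have := congrArg (fun F : C5 →ₗ[ℝ] C5 => F u) this
    exact this
  -- the structure
  let J0 : C5 → (C5 →ₗ[ℝ] C5) := fun z => pol (AA Ω z) * (1 - pr z)
  have hJ0 : ∀ z u, J0 z u = pol (AA Ω z) (u - pr z u) := fun z u => rfl
  have hJ0' : ∀ z u, hp z u = 0 → J0 z u = pol (AA Ω z) u := by
    intro z u hu
    rw [hJ0, pr_apply, hu, zero_smul, sub_zero]
  have hprz : ∀ z ∈ sph, ∀ u, hp z (J0 z u) = 0 := by
    intro z hz u
    have h1 : pr z (J0 z u) = 0 := by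
      rw [hJ0, ← hcomm z hz, map_sub]
      have : pr z (pr z u) = pr z u := by
        have := congrArg (fun F : C5 →ₗ[ℝ] C5 => F u) (pr_sq hz)
        exact this
      rw [this, sub_self, map_zero]
    rw [pr_apply] at h1
    exact smul_eq_zero_iff hz h1
  refine ⟨fun z => LinearMap.toContinuousLinearMap (J0 z), ?_⟩
  constructor
  · -- continuity
    have h1 : ContinuousOn (fun z => mt (pol (AA Ω z))) sph :=
      hpc sph (fun z => AA Ω z) (cont_AA hΩ.cont) fun z hz => ⟨hsk z hz, hinj z hz⟩
    have h2 : ContinuousOn (fun z => mt (pol (AA Ω z)) * (1 - mt (pr z))) sph := by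
      refine h1.mul (ContinuousOn.sub continuousOn_const cont_pr.continuousOn)
    have h3 := cont_mt_symm.comp_continuousOn h2
    refine h3.congr fun z _ => ?_
    show LinearMap.toContinuousLinearMap (J0 z) = LinearMap.toContinuousLinearMap
      (mt.symm (mt (pol (AA Ω z)) * (1 - mt (pr z))))
    congr 1
    rw [← map_one mt, ← map_sub, ← map_mul, AlgEquiv.symm_apply_apply]
  · intro z hz c
    show J0 z (c • z) = 0
    rw [hJ0, pr_apply, hp_smul_right, hp_self_one hz, mul_one, sub_self, map_zero]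
  · intro z hz u
    exact hprz z hz u
  · intro z hz u hu
    show J0 z (J0 z u) = -u
    rw [hJ0' z _ (hprz z hz u), hJ0' z u hu, hsq z hz]
  · intro z hz u hu
    show ∑ i, ‖J0 z u i‖ ^ 2 = ∑ i, ‖u i‖ ^ 2
    rw [← ip_self, ← ip_self, hJ0' z u hu, (hpol _ (hsk z hz) (hinj z hz)).1, hsq z hz,
      ip_neg_right, neg_neg]
  · intro t z hz u
    show J0 (rho t z) (rho t u) = rho t (J0 z u)
    have h1 : AA Ω (rho t z) = rL t * AA Ω z * rL t⁻¹ := AA_rho t fun u v => hΩ.equiv t z hz u v
    have h2 := pol_conj hpol (R := rL t) (R' := rL t⁻¹) (rL_adj t) (rL_mul t) (rL_mul' t)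
      (hsk z hz) (hinj z hz)
    rw [← h1] at h2
    rw [hJ0, hJ0, h2]
    have h3 : rho t u - pr (rho t z) (rho t u) = rho t (u - pr z u) := by
      rw [pr_apply, hp_rho, pr_apply, ← rho_smul, ← rL_apply, ← rL_apply, ← rL_apply, map_sub]
    rw [h3]
    show rho t (pol (AA Ω z) (rho t⁻¹ (rho t (u - pr z u)))) = rho t (pol (AA Ω z) (u - pr z u))
    have h4 : ∀ w, rho t⁻¹ (rho t w) = w := by
      intro w
      have := rho_rho t⁻¹ w
      rwa [inv_inv] at this
    rw [h4]
  · intro z hz
    obtain ⟨Φ, A, h1, h2, h3⟩ := hΩ.neg z hz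
    obtain ⟨L, hL1, hL2, hL3⟩ := exists_adapted hz (J0 z) (fun u _ => hprz z hz u)
      (fun u hu => by rw [hJ0' z _ (hprz z hz u), hJ0' z u hu, hsq z hz])
    let LC : V →L[ℝ] C5 := LinearMap.toContinuousLinearMap L
    have hLC : ∀ v, LC v = L v := fun v => rfl
    refine ⟨LC, Φ, h1, fun v => hL2 v, ?_, ?_⟩
    · intro k
      show L (Pi.single k Complex.I) = J0 z (L (Pi.single k 1))
      rw [← hL3]
      congr 1
      rw [← Pi.single_smul, smul_eq_mul, mul_one]
    · let a : Alt 2 := A.compContinuousLinearMap ((Φ.restrictScalars ℝ).comp LC)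
      have ha : ∀ u v, a ![u, v] = Ω z ![L u, L v] := by
        intro u v
        rw [h3]
        show A (((Φ.restrictScalars ℝ).comp LC) ∘ ![u, v]) = _
        congr 1
        funext i
        fin_cases i <;> rfl
      have hpos : 0 < pow4 a rb := by
        apply tame_pos hP
        intro u hu
        obtain ⟨p1, -, ⟨P, p3, p4, p5⟩, -⟩ := hpol _ (hsk z hz) (hinj z hz)
        rw [ha, hL3, hJ0' z _ (hL2 u)]
        have e1 : Ω z ![L u, pol (AA Ω z) (L u)] = ip (AA Ω z (L u)) (pol (AA Ω z) (L u)) := by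
          rw [ip_AA, hL2]
          simp
        have e2 : AA Ω z (L u) = pol (AA Ω z) (P (L u)) := by
          have := congrArg (fun F : C5 →ₗ[ℝ] C5 => F (L u)) p4
          exact this
        rw [e1, e2, p1, hsq z hz, ip_neg_right, neg_neg]
        apply p3.2
        intro h0
        exact hu (hL1 (by rw [h0, map_zero]))
      have hdet := hP.comp A A A A ((Φ.restrictScalars ℝ).comp LC)
      have hdet' : pow4 a rb = ((Φ.restrictScalars ℝ).comp LC).det * pow4 A rb := hdet
      rw [hdet'] at hpos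
      by_contra hge
      rw [not_lt] at hge
      have := mul_nonpos_of_nonneg_of_nonpos hge h2.le
      linarith

end Pool.Agent.TH159.SD
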