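import Pool.Agent.TH179.SD.Lin

/-!
# SD-K6 (helper159 for helper179), part A: coordinates and the polar decomposition of operators
-/

open scoped Topology
open Set Matrix

noncomputable section

namespace Pool.Agent.TH159.SD

open Pool.Agent.TH179.SD

/-- real coordinates of a vector of `ℂ⁵` -/
def tf (u : C5) (k : Fin 10) : ℝ :=
  if (k : ℕ) % 2 = 0 then (u ⟨(k : ℕ) / 2, by omega⟩).re else (u ⟨(k : ℕ) / 2, by omega⟩).im

/-- the vector with given coordinates -/
def sf (x : Fin 10 → ℝ) (i : Fin 5) : ℂ := ⟨x ⟨2 * (i : ℕ), by omega⟩, x ⟨2 * (i : ℕ) + 1, by omega⟩⟩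

theorem sf_tf (u : C5) : sf (tf u) = u := by
  funext i
  apply Complex.ext
  · simp [sf, tf]
  · have h1 : (2 * (i : ℕ) + 1) % 2 = 1 := by omega
    have h2 : (2 * (i : ℕ) + 1) / 2 = i := by omega
    simp [sf, tf, h1, h2]

theorem tf_sf (x : Fin 10 → ℝ) : tf (sf x) = x := by
  funext k
  unfold tf sf
  split_ifs with h
  · simp only
    congr 1
    apply Fin.ext
    simp only
    omega
  · simp only
    congr 1
    apply Fin.ext
    simp only
    omega

/-- the real coordinates, as a linear equivalence -/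
def Te : C5 ≃ₗ[ℝ] (Fin 10 → ℝ) where
  toFun := tf
  invFun := sf
  left_inv := sf_tf
  right_inv := tf_sf
  map_add' u v := by
    funext k
    simp only [tf, Pi.add_apply]
    split_ifs <;> simp
  map_smul' r u := by
    funext k
    simp only [tf, Pi.smul_apply, RingHom.id_apply, smul_eq_mul]
    split_ifs <;> simp

/-- the real basis -/
def bC : Module.Basis (Fin 10) ℝ C5 := Module.Basis.ofEquivFun Te

theorem repr_bC (u : C5) (k : Fin 10) : bC.repr u k = Te u k := by
  simp [bC]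

/-- the real inner product -/
def ip (u v : C5) : ℝ := (hp u v).re

theorem hp_add_right (z u v : C5) : hp z (u + v) = hp z u + hp z v := by
  simp [hp, mul_add, Finset.sum_add_distrib]

theorem hp_smul_right (z u : C5) (c : ℂ) : hp z (c • u) = c * hp z u := by
  simp only [hp, Pi.smul_apply, smul_eq_mul, Finset.mul_sum]
  exact Finset.sum_congr rfl fun i _ => by ring

theorem hp_conj (u v : C5) : (starRingEnd ℂ) (hp u v) = hp v u := by
  simp only [hp, map_sum, map_mul, Complex.conj_conj]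
  exact Finset.sum_congr rfl fun i _ => by ring

theorem hp_add_left (u v w : C5) : hp (u + v) w = hp u w + hp v w := by
  simp [hp, add_mul, Finset.sum_add_distrib]

theorem hp_smul_left (c : ℂ) (u v : C5) : hp (c • u) v = (starRingEnd ℂ) c * hp u v := by
  simp only [hp, Pi.smul_apply, smul_eq_mul, Finset.mul_sum, map_mul]
  exact Finset.sum_congr rfl fun i _ => by ring

theorem hp_self (u : C5) : hp u u = ((∑ i, ‖u i‖ ^ 2 : ℝ) : ℂ) := by
  simp only [hp]
  push_cast
  refine Finset.sum_congr rfl fun i _ => ?_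
  rw [← Complex.normSq_eq_conj_mul_self, Complex.normSq_eq_norm_sq]
  push_cast
  rfl

theorem ip_eq (u v : C5) : ip u v = Te u ⬝ᵥ Te v := by
  have h : ∀ k : Fin 10, Te u k = tf u k := fun _ => rfl
  simp only [ip, hp, dotProduct, Fin.sum_univ_succ, Finset.univ_unique]
  simp [Te, tf, Complex.mul_re]
  ring

theorem ip_comm (u v : C5) : ip u v = ip v u := by
  rw [ip_eq, ip_eq, dotProduct_comm]

theorem ip_add_left (u v w : C5) : ip (u + v) w = ip u w + ip v w := by
  simp [ip, hp_add_left]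

theorem ip_add_right (u v w : C5) : ip u (v + w) = ip u v + ip u w := by
  simp [ip, hp_add_right]

theorem ip_smul_left (r : ℝ) (u v : C5) : ip (r • u) v = r * ip u v := by
  rw [ip_eq, ip_eq, map_smul, smul_dotProduct, smul_eq_mul]

theorem ip_smul_right (r : ℝ) (u v : C5) : ip u (r • v) = r * ip u v := by
  rw [ip_comm, ip_smul_left, ip_comm]

theorem ip_sum_left {ι : Type*} (s : Finset ι) (f : ι → C5) (v : C5) :
    ip (∑ i ∈ s, f i) v = ∑ i ∈ s, ip (f i) v := by
  classical
  induction s using Finset.induction_on with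
  | empty => simp [ip, hp]
  | insert a s ha ih => rw [Finset.sum_insert ha, Finset.sum_insert ha, ip_add_left, ih]

theorem ip_neg_right (u v : C5) : ip u (-v) = -ip u v := by
  have := ip_smul_right (-1) u v
  simpa using this

theorem ip_neg_left (u v : C5) : ip (-u) v = -ip u v := by
  have := ip_smul_left (-1) u v
  simpa using this

theorem ip_self (u : C5) : ip u u = ∑ i, ‖u i‖ ^ 2 := by
  rw [ip, hp_self, Complex.ofReal_re]

theorem ip_self_pos {u : C5} (hu : u ≠ 0) : 0 < ip u u := by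
  rw [ip_self]
  have h0 : 0 ≤ ∑ i, ‖u i‖ ^ 2 := Finset.sum_nonneg fun i _ => by positivity
  refine h0.lt_of_ne fun h => hu ?_
  have := (Finset.sum_eq_zero_iff_of_nonneg (fun i _ => by positivity)).1 h.symm
  funext i
  have hi := this i (Finset.mem_univ i)
  simpa using hi

theorem ip_ext {u v : C5} (h : ∀ w, ip u w = ip v w) : u = v := by
  by_contra hne
  have h1 : u - v ≠ 0 := sub_ne_zero.2 hne
  have h2 := ip_self_pos h1
  have h3 : ip (u - v) (u - v) = 0 := by
    have : u - v = u + (-v) := sub_eq_add_neg u v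
    conv_lhs => rw [this]
    rw [ip_add_left, ip_neg_left, ← this, h (u - v)]
    ring
  linarith

/-- matrices of operators -/
def mt : (C5 →ₗ[ℝ] C5) ≃ₐ[ℝ] Matrix (Fin 10) (Fin 10) ℝ := LinearMap.toMatrixAlgEquiv bC

theorem mt_apply (F : C5 →ₗ[ℝ] C5) (i j : Fin 10) : mt F i j = Te (F (bC j)) i := by
  rw [mt, LinearMap.toMatrixAlgEquiv_apply, repr_bC]

theorem Te_bC (j : Fin 10) : Te (bC j) = Pi.single j 1 := by
  rw [bC, Module.Basis.coe_ofEquivFun]
  simp

theorem Te_apply (F : C5 →ₗ[ℝ] C5) (u : C5) : Te (F u) = mt F *ᵥ Te u := by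
  have h := LinearMap.toMatrix_mulVec_repr bC bC F u
  funext k
  have h1 := congrFun h k
  rw [repr_bC] at h1
  rw [← h1]
  have h2 : (bC.repr u : Fin 10 → ℝ) = Te u := funext fun k => repr_bC u k
  rw [h2]
  rfl

/-- adjoint -/
theorem adj_iff (F G : C5 →ₗ[ℝ] C5) : (∀ u v, ip (F u) v = ip u (G v)) ↔ (mt F)ᵀ = mt G := by
  have e1 : ∀ u v, ip (F u) v = Te u ⬝ᵥ ((mt F)ᵀ *ᵥ Te v) := by
    intro u v
    rw [ip_eq, Te_apply, Matrix.mulVec_transpose, dotProduct_comm, Matrix.dotProduct_mulVec,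
      dotProduct_comm]
  have e2 : ∀ u v, ip u (G v) = Te u ⬝ᵥ (mt G *ᵥ Te v) := by
    intro u v
    rw [ip_eq, Te_apply]
  constructor
  · intro h
    ext i j
    have h1 := h (bC i) (bC j)
    rw [e1, e2, Te_bC, Te_bC] at h1
    simpa using h1
  · intro h u v
    rw [e1, e2, h]

/-- skew operators -/
def Skew (F : C5 →ₗ[ℝ] C5) : Prop := ∀ u v, ip (F u) v = -ip u (F v)

/-- positive operators -/
def PosOp (P : C5 →ₗ[ℝ] C5) : Prop := (∀ u v, ip (P u) v = ip u (P v)) ∧ ∀ u, u ≠ 0 → 0 < ip (P u) u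

/-- injective operators -/
def Inj (F : C5 →ₗ[ℝ] C5) : Prop := ∀ u, F u = 0 → u = 0

theorem skew_iff (F : C5 →ₗ[ℝ] C5) : Skew F ↔ (mt F)ᵀ = -mt F := by
  have h := adj_iff F (-F)
  rw [map_neg] at h
  rw [← h]
  constructor
  · intro h1 u v
    rw [h1 u v, LinearMap.neg_apply, ip_neg_right]
  · intro h1 u v
    rw [h1 u v, LinearMap.neg_apply, ip_neg_right]

theorem det_ne {F : C5 →ₗ[ℝ] C5} (h : Inj F) : (mt F).det ≠ 0 := by
  intro h0
  obtain ⟨v, hv, hv0⟩ := Matrix.exists_mulVec_eq_zero_iff.2 h0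
  have h1 : F (Te.symm v) = 0 := by
    apply Te.injective
    rw [Te_apply, LinearEquiv.apply_symm_apply, hv0, map_zero]
  have h2 := h _ h1
  apply hv
  have := congrArg Te h2
  simpa using this

theorem posOp_iff (P : C5 →ₗ[ℝ] C5) : PosOp P ↔ (mt P).PosDef := by
  have e1 : ∀ u, ip (P u) u = Te u ⬝ᵥ (mt P *ᵥ Te u) := by
    intro u
    rw [ip_comm, ip_eq, Te_apply]
  constructor
  · rintro ⟨h1, h2⟩
    refine Matrix.PosDef.of_dotProduct_mulVec_pos ?_ ?_
    · rw [Matrix.IsHermitian, Matrix.conjTranspose_eq_transpose_of_trivial]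
      exact (adj_iff P P).1 h1
    · intro x hx
      have h3 := h2 (Te.symm x) (fun h => hx (by simpa using congrArg Te h))
      rw [e1, LinearEquiv.apply_symm_apply] at h3
      simpa using h3
  · intro h
    constructor
    · rw [adj_iff]
      have := h.1
      rwa [Matrix.IsHermitian, Matrix.conjTranspose_eq_transpose_of_trivial] at this
    · intro u hu
      rw [e1]
      have h3 := h.dotProduct_mulVec_pos (x := Te u) (fun h => hu (by
        apply Te.injective
        rw [h, map_zero]))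
      simpa using h3

/-- the polar decomposition for operators -/
theorem polar_op (h : PolarProp 10) : ∃ pol : (C5 →ₗ[ℝ] C5) → (C5 →ₗ[ℝ] C5),
    (∀ (X : Set C5) (A : C5 → (C5 →ₗ[ℝ] C5)), ContinuousOn (fun z => mt (A z)) X →
      (∀ z ∈ X, Skew (A z) ∧ Inj (A z)) → ContinuousOn (fun z => mt (pol (A z))) X) ∧
    ∀ A, Skew A → Inj A → Skew (pol A) ∧ pol A * pol A = -1 ∧
      (∃ P, PosOp P ∧ A = pol A * P ∧ pol A * P = P * pol A) ∧
      ∀ J P, Skew J → J * J = -1 → PosOp P → A = J * P → J * P = P * J → J = pol A := by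
  obtain ⟨pol, hc, hp⟩ := h
  refine ⟨fun F => mt.symm (pol (mt F)), ?_, ?_⟩
  · intro X A hA hX
    simp only [AlgEquiv.apply_symm_apply]
    refine hc.comp hA ?_
    intro z hz
    exact ⟨(skew_iff _).1 (hX z hz).1, det_ne (hX z hz).2⟩
  · intro A hA1 hA2
    obtain ⟨h1, h2, ⟨P, hP1, hP2, hP3⟩, h4⟩ := hp (mt A) ((skew_iff _).1 hA1) (det_ne hA2)
    refine ⟨?_, ?_, ⟨mt.symm P, ?_, ?_, ?_⟩, ?_⟩
    · rw [skew_iff, AlgEquiv.apply_symm_apply, h1]
    · rw [← map_mul, h2, map_neg, map_one]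
    · rw [posOp_iff, AlgEquiv.apply_symm_apply]
      exact hP1
    · rw [← map_mul, ← hP2, AlgEquiv.symm_apply_apply]
    · rw [← map_mul, ← map_mul, hP3]
    · intro J Q hJ1 hJ2 hQ hA hJQ
      have := h4 (mt J) (mt Q) ((skew_iff _).1 hJ1) (by rw [← map_mul, hJ2, map_neg, map_one])
        ((posOp_iff _).1 hQ) (by rw [hA, map_mul]) (by rw [← map_mul, hJQ, map_mul])
      show J = mt.symm (pol (mt A))
      rw [← this, AlgEquiv.symm_apply_apply]

end Pool.Agent.TH159.SD
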