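import Pool.Agent.TH159.SD.JOmegaA

/-!
# SD-K6 (helper159 for helper179), part B: the operators
-/

open scoped Topology
open Set Matrix

noncomputable section

namespace Pool.Agent.TH159.SD

open Pool.Agent.TH179.SD

section alt

variable {E : Type} [NormedAddCommGroup E] [NormedSpace ℝ E]

theorem alt_add_left (ω : AltE E 2) (x y w : E) : ω ![x + y, w] = ω ![x, w] + ω ![y, w] :=
  ω.vecCons_add ![w] x y

theorem alt_smul_left (ω : AltE E 2) (c : ℝ) (x w : E) : ω ![c • x, w] = c * ω ![x, w] :=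
  ω.vecCons_smul ![w] c x

theorem alt_swap (ω : AltE E 2) (x y : E) : ω ![x, y] = -ω ![y, x] := by
  have h := ω.toAlternatingMap.map_swap ![y, x] (i := 0) (j := 1) (by decide)
  have h2 : ![y, x] ∘ Equiv.swap (0 : Fin 2) 1 = ![x, y] := by
    funext i
    fin_cases i <;> simp
  rw [h2] at h
  exact h

theorem alt_add_right (ω : AltE E 2) (x y w : E) : ω ![w, x + y] = ω ![w, x] + ω ![w, y] := by
  rw [alt_swap, alt_add_left, alt_swap ω w x, alt_swap ω w y]
  ring

theorem alt_smul_right (ω : AltE E 2) (c : ℝ) (x w : E) : ω ![w, c • x] = c * ω ![w, x] := by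
  rw [alt_swap, alt_smul_left, alt_swap ω w x]
  ring

/-- the bilinear form of a 2-form -/
def bil (ω : AltE E 2) : E →ₗ[ℝ] E →ₗ[ℝ] ℝ :=
  LinearMap.mk₂ ℝ (fun u v => ω ![u, v]) (fun u v w => alt_add_left ω u v w)
    (fun c u v => alt_smul_left ω c u v) (fun u v w => alt_add_right ω v w u)
    (fun c u v => alt_smul_right ω c v u)

theorem bil_apply (ω : AltE E 2) (u v : E) : bil ω u v = ω ![u, v] := rfl

end alt

/-- the operator of a 2-form -/
def omL (ω : AltE C5 2) : C5 →ₗ[ℝ] C5 := ∑ i, ((bil ω).flip (bC i)).smulRight (bC i)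

theorem omL_apply (ω : AltE C5 2) (u : C5) : omL ω u = ∑ i, ω ![u, bC i] • bC i := by
  simp [omL, bil_apply]

theorem ip_bC (i : Fin 10) (v : C5) : ip (bC i) v = Te v i := by
  rw [ip_eq, Te_bC, single_one_dotProduct]

theorem ip_omL (ω : AltE C5 2) (u v : C5) : ip (omL ω u) v = ω ![u, v] := by
  rw [omL_apply, ip_sum_left]
  have h : v = ∑ i, Te v i • bC i := by
    conv_lhs => rw [← bC.sum_repr v]
    exact Finset.sum_congr rfl fun i _ => by rw [repr_bC]
  have h2 : ω ![u, v] = ∑ i, Te v i * ω ![u, bC i] := by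
    rw [← bil_apply]
    conv_lhs => rw [h]
    rw [map_sum]
    refine Finset.sum_congr rfl fun i _ => ?_
    rw [map_smul, bil_apply, smul_eq_mul]
  rw [h2]
  refine Finset.sum_congr rfl fun i _ => ?_
  rw [ip_smul_left, ip_bC]
  ring

/-- the hermitian product as a real linear map -/
def hpL (z : C5) : C5 →ₗ[ℝ] ℂ where
  toFun u := hp z u
  map_add' u v := hp_add_right z u v
  map_smul' r u := by
    have : (r • u : C5) = (r : ℂ) • u := by
      funext i
      simp
    rw [this, hp_smul_right]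
    simp

/-- the projection to `ℂ z` -/
def pr (z : C5) : C5 →ₗ[ℝ] C5 where
  toFun u := hp z u • z
  map_add' u v := by rw [hp_add_right, add_smul]
  map_smul' r u := by
    have h : hp z (r • u) = r • hp z u := (hpL z).map_smul r u
    rw [h]
    funext i
    simp [mul_assoc]

theorem pr_apply (z u : C5) : pr z u = hp z u • z := rfl

/-- multiplication by `i` composed with the projection to `ℂ z` -/
def kL (z : C5) : C5 →ₗ[ℝ] C5 where
  toFun u := (Complex.I * hp z u) • z
  map_add' u v := by rw [hp_add_right, mul_add, add_smul]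
  map_smul' r u := by
    have h : hp z (r • u) = r • hp z u := (hpL z).map_smul r u
    rw [h]
    funext i
    simp only [Pi.smul_apply, smul_eq_mul, Complex.real_smul, RingHom.id_apply]
    ring

theorem kL_apply (z u : C5) : kL z u = (Complex.I * hp z u) • z := rfl

/-- the operator -/
def AA (Ω : C5 → AltE C5 2) (z : C5) : C5 →ₗ[ℝ] C5 := omL (Ω z) + kL z

theorem ip_smulC_left (c : ℂ) (u v : C5) : ip (c • u) v = ((starRingEnd ℂ) c * hp u v).re := by
  rw [ip, hp_smul_left]

theorem ip_AA (Ω : C5 → AltE C5 2) (z u v : C5) :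
    ip (AA Ω z u) v = Ω z ![u, v] + ((starRingEnd ℂ) (Complex.I * hp z u) * hp z v).re := by
  rw [AA, LinearMap.add_apply, ip_add_left, ip_omL, kL_apply, ip_smulC_left]

theorem skew_AA (Ω : C5 → AltE C5 2) (z : C5) : Skew (AA Ω z) := by
  intro u v
  rw [ip_AA, ip_comm u, ip_AA, alt_swap]
  simp only [map_mul, Complex.conj_I, Complex.mul_re, Complex.mul_im, Complex.neg_re,
    Complex.neg_im, Complex.I_re, Complex.I_im, Complex.conj_re, Complex.conj_im]
  ring

/-- `hp z w = 0` if `w` is orthogonal to `ℂ z` -/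
theorem hp_eq_zero_of {z w : C5} (h : ∀ c : ℂ, ip w (c • z) = 0) : hp z w = 0 := by
  have h1 := h 1
  have h2 := h Complex.I
  rw [ip_comm, ip_smulC_left] at h1 h2
  apply Complex.ext
  · simpa using h1
  · simpa using h2

theorem hp_self_one {z : C5} (hz : z ∈ sph) : hp z z = 1 := by
  rw [hp_self]
  have : ∑ i, ‖z i‖ ^ 2 = 1 := hz
  rw [this]
  simp

theorem ne_zero {z : C5} (hz : z ∈ sph) : z ≠ 0 := by
  intro h
  have := hp_self_one hz
  rw [h] at this
  simp [hp] at this

theorem smul_eq_zero_iff {z : C5} (hz : z ∈ sph) {c : ℂ} (h : c • z = 0) : c = 0 := by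
  have h1 : hp z (c • z) = c := by rw [hp_smul_right, hp_self_one hz, mul_one]
  rw [← h1, h]
  simp [hp]

section neg

variable {Ω : C5 → AltE C5 2} {z : C5}

/-- the form kills `ℂ z` -/
theorem kill (h : ∃ (Φ : C5 →L[ℂ] V) (A : Alt 2), (∀ v, Φ v = 0 ↔ ∃ c : ℂ, v = c • z) ∧
    pow4 A rb < 0 ∧ ∀ u v, Ω z ![u, v] = A ![Φ u, Φ v]) (c : ℂ) (v : C5) :
    Ω z ![c • z, v] = 0 := by
  obtain ⟨Φ, A, h1, -, h3⟩ := h
  rw [h3, (h1 (c • z)).2 ⟨c, rfl⟩]
  exact A.map_coord_zero 0 rfl

theorem surj (Φ : C5 →L[ℂ] V) (h1 : ∀ v, Φ v = 0 ↔ ∃ c : ℂ, v = c • z) (hz : z ∈ sph) :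
    Function.Surjective Φ := by
  have hk : LinearMap.ker (Φ : C5 →ₗ[ℂ] V) = Submodule.span ℂ {z} := by
    ext v
    rw [LinearMap.mem_ker, Submodule.mem_span_singleton]
    constructor
    · intro h
      obtain ⟨c, hc⟩ := (h1 v).1 h
      exact ⟨c, hc.symm⟩
    · rintro ⟨c, hc⟩
      exact (h1 v).2 ⟨c, hc.symm⟩
  have h2 : Module.finrank ℂ (LinearMap.ker (Φ : C5 →ₗ[ℂ] V)) = 1 := by
    rw [hk]
    exact finrank_span_singleton (ne_zero hz)
  have h3 := LinearMap.finrank_range_add_finrank_ker (Φ : C5 →ₗ[ℂ] V)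
  rw [h2] at h3
  have h4 : Module.finrank ℂ C5 = 5 := by simp
  have h5 : Module.finrank ℂ V = 4 := by simp
  rw [h4] at h3
  have h6 : LinearMap.range (Φ : C5 →ₗ[ℂ] V) = ⊤ := by
    apply Submodule.eq_top_of_finrank_eq
    rw [h5]
    omega
  exact LinearMap.range_eq_top.1 h6

theorem AA_cz (hz : z ∈ sph) (hk : ∀ (c : ℂ) (v : C5), Ω z ![c • z, v] = 0) (c : ℂ) :
    AA Ω z (c • z) = (Complex.I * c) • z := by
  apply ip_ext
  intro w
  rw [ip_AA, hk, zero_add, ip_smulC_left, hp_smul_right, hp_self_one hz, mul_one]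

theorem hp_om (hk : ∀ (c : ℂ) (v : C5), Ω z ![c • z, v] = 0) (u : C5) :
    hp z (omL (Ω z) u) = 0 := by
  apply hp_eq_zero_of
  intro c
  rw [ip_omL, alt_swap, hk, neg_zero]

theorem hp_AA (hz : z ∈ sph) (hk : ∀ (c : ℂ) (v : C5), Ω z ![c • z, v] = 0) (u : C5) :
    hp z (AA Ω z u) = Complex.I * hp z u := by
  rw [AA, LinearMap.add_apply, hp_add_right, hp_om hk, zero_add, kL_apply, hp_smul_right,
    hp_self_one hz, mul_one]

/-- the operator commutes with the projection -/
theorem AA_pr (hz : z ∈ sph) (hk : ∀ (c : ℂ) (v : C5), Ω z ![c • z, v] = 0) :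
    AA Ω z * pr z = pr z * AA Ω z := by
  refine LinearMap.ext fun u => ?_
  show AA Ω z (pr z u) = pr z (AA Ω z u)
  rw [pr_apply, pr_apply, AA_cz hz hk, hp_AA hz hk]

theorem inj_AA (hP : PowProps) (hz : z ∈ sph)
    (h : ∃ (Φ : C5 →L[ℂ] V) (A : Alt 2), (∀ v, Φ v = 0 ↔ ∃ c : ℂ, v = c • z) ∧
      pow4 A rb < 0 ∧ ∀ u v, Ω z ![u, v] = A ![Φ u, Φ v]) : Inj (AA Ω z) := by
  have hk := kill h
  obtain ⟨Φ, A, h1, h2, h3⟩ := h
  intro u hu
  have e1 : hp z u = 0 := by
    have := hp_AA hz hk u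
    rw [hu] at this
    have h0 : hp z (0 : C5) = 0 := by simp [hp]
    rw [h0] at this
    simpa using this.symm
  have e2 : ∀ v, Ω z ![u, v] = 0 := by
    intro v
    have := ip_AA Ω z u v
    rw [hu, e1] at this
    have h0 : ip (0 : C5) v = 0 := by simp [ip, hp]
    rw [h0] at this
    simpa using this.symm
  have e3 : Φ u = 0 := by
    refine (hP.nondeg A).1 h2.ne (Φ u) fun w => ?_
    obtain ⟨v, rfl⟩ := surj Φ h1 hz w
    rw [← h3, e2]
  obtain ⟨c, hc⟩ := (h1 u).1 e3
  rw [hc, hp_smul_right, hp_self_one hz, mul_one] at e1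
  rw [hc, e1, zero_smul]

end neg

/-- conjugation of the polar decomposition -/
theorem pol_conj {pol : (C5 →ₗ[ℝ] C5) → (C5 →ₗ[ℝ] C5)}
    (hpol : ∀ A, Skew A → Inj A → Skew (pol A) ∧ pol A * pol A = -1 ∧
      (∃ P, PosOp P ∧ A = pol A * P ∧ pol A * P = P * pol A) ∧
      ∀ J P, Skew J → J * J = -1 → PosOp P → A = J * P → J * P = P * J → J = pol A)
    {A R R' : C5 →ₗ[ℝ] C5} (hR : ∀ u v, ip (R u) v = ip u (R' v)) (h1 : R * R' = 1)
    (h2 : R' * R = 1) (hA : Skew A) (hI : Inj A) : pol (R * A * R') = R * pol A * R' := by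
  have hR' : ∀ u v, ip (R' u) v = ip u (R v) := fun u v => by
    rw [ip_comm, ← hR, ip_comm]
  have sk : ∀ B : C5 →ₗ[ℝ] C5, Skew B → Skew (R * B * R') := by
    intro B hB u v
    show ip (R (B (R' u))) v = -ip u (R (B (R' v)))
    rw [hR, hB, hR']
  have hA2 := sk A hA
  have r1 : ∀ u, R (R' u) = u := fun u => by
    have := congrArg (fun F : C5 →ₗ[ℝ] C5 => F u) h1
    exact this
  have r2 : ∀ u, R' (R u) = u := fun u => by
    have := congrArg (fun F : C5 →ₗ[ℝ] C5 => F u) h2
    exact this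
  have hI2 : Inj (R * A * R') := by
    intro u hu
    have e1 : R (A (R' u)) = 0 := hu
    have e2 : A (R' u) = 0 := by rw [← r2 (A (R' u)), e1, map_zero]
    have e3 := hI _ e2
    rw [← r1 u, e3, map_zero]
  obtain ⟨p1, p2, ⟨P, p3, p4, p5⟩, -⟩ := hpol A hA hI
  obtain ⟨-, -, -, q4⟩ := hpol _ hA2 hI2
  refine (q4 (R * pol A * R') (R * P * R') (sk _ p1) ?_ ⟨?_, ?_⟩ ?_ ?_).symm
  · calc R * pol A * R' * (R * pol A * R') = R * pol A * (R' * R) * pol A * R' := by
          simp only [mul_assoc]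
      _ = R * (pol A * pol A) * R' := by rw [h2, mul_one]; simp only [mul_assoc]
      _ = -1 := by
          rw [p2]
          refine LinearMap.ext fun u => ?_
          show R (-(R' u)) = -u
          rw [map_neg, r1]
  · intro u v
    show ip (R (P (R' u))) v = ip u (R (P (R' v)))
    rw [hR, p3.1, hR']
  · intro u hu
    show 0 < ip (R (P (R' u))) u
    rw [hR]
    apply p3.2
    intro h
    apply hu
    rw [← r1 u, h, map_zero]
  · calc R * A * R' = R * (pol A * P) * R' := by rw [← p4]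
      _ = R * pol A * (R' * R) * P * R' := by rw [h2, mul_one]; simp only [mul_assoc]
      _ = R * pol A * R' * (R * P * R') := by simp only [mul_assoc]
  · calc R * pol A * R' * (R * P * R') = R * pol A * (R' * R) * P * R' := by
          simp only [mul_assoc]
      _ = R * (pol A * P) * R' := by rw [h2, mul_one]; simp only [mul_assoc]
      _ = R * (P * pol A) * R' := by rw [p5]
      _ = R * P * (R' * R) * pol A * R' := by rw [h2, mul_one]; simp only [mul_assoc]
      _ = R * P * R' * (R * pol A * R') := by simp only [mul_assoc]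

/-- `ρ_t` as a linear map -/
def rL (t : Circle) : C5 →ₗ[ℝ] C5 where
  toFun := rho t
  map_add' u v := by
    funext i
    simp only [rho, Pi.add_apply]
    split_ifs <;> ring
  map_smul' r u := by
    funext i
    simp only [rho, Pi.smul_apply, Complex.real_smul, RingHom.id_apply]
    split_ifs <;> ring

theorem rL_apply (t : Circle) (u : C5) : rL t u = rho t u := rfl

theorem hp_rho (t : Circle) (u v : C5) : hp (rho t u) (rho t v) = hp u v := by
  have ht : (starRingEnd ℂ) (t : ℂ) * (t : ℂ) = 1 := by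
    rw [← Complex.normSq_eq_conj_mul_self, Complex.normSq_eq_norm_sq, Circle.norm_coe]
    simp
  simp only [hp]
  refine Finset.sum_congr rfl fun i _ => ?_
  simp only [rho]
  split_ifs
  · rw [map_mul, Complex.conj_conj]
    linear_combination (starRingEnd ℂ) (u i) * v i * ht
  · rw [map_mul]
    linear_combination (starRingEnd ℂ) (u i) * v i * ht

theorem rho_rho (t : Circle) (u : C5) : rho t (rho t⁻¹ u) = u := by
  have ht : (starRingEnd ℂ) (t : ℂ) * (t : ℂ) = 1 := by
    rw [← Complex.normSq_eq_conj_mul_self, Complex.normSq_eq_norm_sq, Circle.norm_coe]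
    simp
  have h2 : ((t⁻¹ : Circle) : ℂ) = (starRingEnd ℂ) (t : ℂ) := Circle.coe_inv_eq_conj t
  funext i
  simp only [rho]
  split_ifs
  · rw [h2, Complex.conj_conj]
    linear_combination u i * ht
  · rw [h2]
    linear_combination u i * ht

theorem rho_smul (t : Circle) (c : ℂ) (u : C5) : rho t (c • u) = c • rho t u := by
  funext i
  simp only [rho, Pi.smul_apply, smul_eq_mul]
  split_ifs <;> ring

theorem rho_sph (t : Circle) {z : C5} (hz : z ∈ sph) : rho t z ∈ sph := by
  have h1 := hp_rho t z z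
  rw [hp_self_one hz, hp_self] at h1
  show ∑ i, ‖rho t z i‖ ^ 2 = 1
  exact_mod_cast h1

theorem rL_adj (t : Circle) (u v : C5) : ip (rL t u) v = ip u (rL t⁻¹ v) := by
  rw [rL_apply, rL_apply]
  have : v = rho t (rho t⁻¹ v) := (rho_rho t v).symm
  conv_lhs => rw [this]
  rw [ip, hp_rho]
  rfl

theorem rL_mul (t : Circle) : rL t * rL t⁻¹ = 1 := by
  refine LinearMap.ext fun u => ?_
  show rho t (rho t⁻¹ u) = u
  exact rho_rho t u

theorem rL_mul' (t : Circle) : rL t⁻¹ * rL t = 1 := by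
  have := rL_mul t⁻¹
  rwa [inv_inv] at this

/-- equivariance of the operator -/
theorem AA_rho {Ω : C5 → AltE C5 2} {z : C5} (t : Circle)
    (he : ∀ u v, Ω (rho t z) ![rho t u, rho t v] = Ω z ![u, v]) :
    AA Ω (rho t z) = rL t * AA Ω z * rL t⁻¹ := by
  have key : AA Ω (rho t z) * rL t = rL t * AA Ω z := by
    refine LinearMap.ext fun u => ?_
    show AA Ω (rho t z) (rho t u) = rho t (AA Ω z u)
    apply ip_ext
    intro w
    rw [← rho_rho t w]
    generalize rho t⁻¹ w = v
    rw [ip_AA, he, hp_rho, hp_rho]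
    have : ip (rho t (AA Ω z u)) (rho t v) = ip (AA Ω z u) v := by
      rw [ip, hp_rho]
      rfl
    rw [this, ip_AA]
  rw [← key, mul_assoc, rL_mul, mul_one]

/-- continuity of the operator -/
theorem cont_AA {Ω : C5 → AltE C5 2} (hc : ContinuousOn Ω sph) :
    ContinuousOn (fun z => mt (AA Ω z)) sph := by
  have key : ∀ i j, ContinuousOn (fun z => mt (AA Ω z) i j) sph := by
    intro i j
    have e : ∀ z, mt (AA Ω z) i j = Ω z ![bC j, bC i] +
        ((starRingEnd ℂ) (Complex.I * hp z (bC j)) * hp z (bC i)).re := by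
      intro z
      rw [mt_apply, ← ip_bC, ip_comm, ip_AA]
    simp only [e]
    refine ContinuousOn.add ?_ ?_
    · exact (continuous_eval_const (F := AltE C5 2) ![bC j, bC i]).comp_continuousOn hc
    · refine Continuous.continuousOn ?_
      have h1 : ∀ w : C5, Continuous fun z : C5 => hp z w := by
        intro w
        unfold hp
        fun_prop
      have h2 := h1 (bC i)
      have h3 := h1 (bC j)
      fun_prop
  exact continuousOn_pi.2 fun i => continuousOn_pi.2 fun j => key i j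

end Pool.Agent.TH159.SD
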